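import Pool.Agent.H92.CK.Targets

/-!
# Two cracks with the same edge and equal measurements coincide: proof of T_SED
-/

set_option autoImplicit false

open MeasureTheory Set Filter Topology Metric
open scoped ENNReal NNReal ContDiff RealInnerProductSpace

namespace Pool.Agent.H13.CK

open Pool.Agent.H94.IC Pool.Agent.H94.AC Pool.Agent.H92.CK

theorem first_kind {S : Set E} {e : E → ℤˣ} {p : E} {r : ℝ} (h : LSg S e p r) (hp : p ∉ S) :
    Disjoint (ball p r) S ∧ ∃ c : ℤˣ, ∀ y ∈ ball p r, e y = c := by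
  obtain ⟨hr, h1 | ⟨Ψ, h1, h2, -, -, h3, -⟩⟩ := h
  · exact h1
  · exact absurd ((h3 p (h1 (mem_ball_self hr))).2 h2) hp

theorem loc_const {S S' : Set E} {s : E → ℤˣ} {p : E} (h : LSec S S' s p) (hp : p ∉ S)
    (hp' : p ∉ S') : ∃ r > 0, ∀ y ∈ ball p r, y ∉ S ∧ y ∉ S' ∧ s y = s p := by
  obtain ⟨r, e, e', h1, h2, h3⟩ := h
  have hr : 0 < r := h1.1
  obtain ⟨d1, c, hc⟩ := first_kind h1 hp
  obtain ⟨d2, c', hc'⟩ := first_kind h2 hp'
  refine ⟨r, hr, fun y hy => ?_⟩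
  have hy1 : y ∉ S := fun h => Set.disjoint_left.1 d1 hy h
  have hy2 : y ∉ S' := fun h => Set.disjoint_left.1 d2 hy h
  refine ⟨hy1, hy2, ?_⟩
  rw [h3 y hy hy1 hy2, h3 p (mem_ball_self hr) hp hp', hc y hy, hc p (mem_ball_self hr),
    hc' y hy, hc' p (mem_ball_self hr)]

theorem swap {S S' : Set E} {s : E → ℤˣ} {p : E} (h : LSec S S' s p) : LSec S' S s p := by
  obtain ⟨r, e, e', h1, h2, h3⟩ := h
  exact ⟨r, e', e, h2, h1, fun y hy h4 h5 => by rw [h3 y hy h5 h4, mul_comm]⟩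

/-- outside a ball -/
theorem outside (R : ℝ) : IsPreconnected {x : E | R ≤ ‖x‖} := by
  have h1 : {x : E | R ≤ ‖x‖} = (fun q : E × ℝ => q.2 • q.1) '' (sphere (0 : E) 1 ×ˢ Ici R) := by
    ext x
    constructor
    · intro hx
      have hx' : R ≤ ‖x‖ := hx
      by_cases h0 : x = 0
      · subst h0
        rw [norm_zero] at hx'
        refine ⟨(EuclideanSpace.single 0 1, 0), ⟨?_, hx'⟩, by simp⟩
        simp
      · have hn : ‖x‖ ≠ 0 := norm_ne_zero_iff.2 h0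
        refine ⟨(‖x‖⁻¹ • x, ‖x‖), ⟨?_, hx'⟩, ?_⟩
        · rw [mem_sphere_zero_iff_norm, norm_smul, norm_inv, norm_norm, inv_mul_cancel₀ hn]
        · dsimp only
          rw [smul_smul, mul_inv_cancel₀ hn, one_smul]
    · rintro ⟨⟨u, t⟩, ⟨hu, ht⟩, rfl⟩
      have hu' : ‖u‖ = 1 := by simpa using hu
      have ht' : R ≤ t := ht
      change R ≤ ‖t • u‖
      rw [norm_smul, hu', mul_one, Real.norm_eq_abs]
      exact ht'.trans (le_abs_self t)
  rw [h1]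
  refine IsPreconnected.image (IsPreconnected.prod ?_ isPreconnected_Ici) _ ?_
  · apply isPreconnected_sphere
    rw [← Module.finrank_eq_rank]
    simp
  · fun_prop

/-- interior points of `S` lie in `S'` if the section is constant -/
theorem int_sub {S S' : Set E} {s : E → ℤˣ} {c₀ : ℤˣ} (hs : ∀ p, p ∉ S' → LSec S S' s p)
    (hc : ∀ x, x ∉ S → x ∉ S' → s x = c₀) : intPts S ⊆ S' := by
  intro p hp
  by_contra hp'
  obtain ⟨r, e, e', h1, h2, h3⟩ := hs p hp'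
  obtain ⟨d2, c', hc'⟩ := first_kind h2 hp'
  obtain ⟨hr, ⟨d1, -⟩ | ⟨Ψ, g1, g2, -, -, g3, c, g4⟩⟩ := h1
  · exact Set.disjoint_left.1 d1 (mem_ball_self hr) hp.1
  have hps : p ∈ Ψ.source := g1 (mem_ball_self hr)
  -- the sign is constant
  have key : ∀ y ∈ ball p r, (Ψ y) 2 ≠ 0 → sgu ((Ψ y) 2) = c₀ * c' * c := by
    intro y hy hy2
    have hyS : y ∉ S := fun h => hy2 ((g3 y (g1 hy)).1 h)
    have hyS' : y ∉ S' := fun h => Set.disjoint_left.1 d2 hy h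
    have h5 := h3 y hy hyS hyS'
    rw [hc y hyS hyS', g4 y hy hyS, hc' y hy] at h5
    rw [h5]
    have hcc : c * c = 1 := Int.units_mul_self c
    have hcc' : c' * c' = 1 := Int.units_mul_self c'
    calc sgu ((Ψ y) 2) = (c * c) * (c' * c') * sgu ((Ψ y) 2) := by rw [hcc, hcc']; simp
      _ = c * sgu ((Ψ y) 2) * c' * c' * c := by
        simp only [mul_comm, mul_assoc, mul_left_comm]
  -- a neighbourhood of `Ψ p`
  have hN : ∀ᶠ z in 𝓝 (Ψ p), z ∈ Ψ.target ∧ Ψ.symm z ∈ ball p r := by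
    have ht : Ψ p ∈ Ψ.target := Ψ.map_source hps
    refine (Ψ.open_target.eventually_mem ht).and ?_
    have hc : ContinuousAt Ψ.symm (Ψ p) := Ψ.continuousAt_symm ht
    have : Ψ.symm (Ψ p) = p := Ψ.left_inv hps
    refine hc.eventually_mem ?_
    rw [this]
    exact ball_mem_nhds p hr
  obtain ⟨δ, hδ, hball⟩ := Metric.eventually_nhds_iff_ball.1 hN
  have hz : ∀ t : ℝ, |t| < δ → Ψ p + t • ev 2 ∈ ball (Ψ p) δ := by
    intro t ht
    rw [mem_ball, dist_eq_norm, add_sub_cancel_left, norm_smul]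
    simpa using ht
  have hval : ∀ t : ℝ, |t| < δ → t ≠ 0 → sgu t = c₀ * c' * c := by
    intro t ht ht0
    obtain ⟨m1, m2⟩ := hball _ (hz t ht)
    have h5 : Ψ (Ψ.symm (Ψ p + t • ev 2)) = Ψ p + t • ev 2 := Ψ.right_inv m1
    have h6 : (Ψ (Ψ.symm (Ψ p + t • ev 2))) 2 = t := by
      rw [h5]
      simp [g2]
    have h7 := key _ m2 (by rw [h6]; exact ht0)
    rwa [h6] at h7
  have hδ2 : |δ / 2| < δ := by rw [abs_of_pos (by positivity)]; linarith
  have hδ3 : |(-(δ / 2))| < δ := by rw [abs_neg]; exact hδ2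
  have e1 := hval (δ / 2) hδ2 (by positivity)
  have e2 := hval (-(δ / 2)) hδ3 (by intro h; linarith)
  rw [← e2] at e1
  unfold sgu at e1
  rw [if_pos (by positivity), if_neg (by intro h; linarith)] at e1
  exact absurd e1 (by decide)

theorem pf_SED (hSCT : T_SCT) (hFMB : T_FMB) (hFFG : T_FFG) (hFM3 : T_FM3) (hFMG : T_FMG)
    (hNVO : T_NVO) (hPRO : T_PRO) (hWNS : T_WNS) (hCNX : T_CNX) (hEDC : T_EDC)
    (hSQI : T_SQI) : T_SED := by
  intro Ω S S' σ ν h h' τ τ' hΩ hσ hS hS' hedge hH hSol hH' hSol' heq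
  obtain ⟨s, hs⟩ := hSCT Ω S S' hS hS' hedge
  have hsS : ∀ p, p ∉ S → LSec S S' s p := fun p hp => hs p fun h => hp h.1
  have hsS' : ∀ p, p ∉ S' → LSec S S' s p := fun p hp => hs p fun h => by
    rw [hedge] at h
    exact hp h.1
  have hYc : IsCompact (S ∪ S') := hS.cpt.union hS'.cpt
  have hYΩ : S ∪ S' ⊆ Ω := union_subset hS.sub hS'.sub
  obtain ⟨R, hR0, hR⟩ := hYc.isBounded.subset_ball_lt 0 0
  -- the section is constant outside the ball
  have hloc : ∀ p, p ∉ S → p ∉ S' → ∃ r > 0, ∀ y ∈ ball p r, y ∉ S ∧ y ∉ S' ∧ s y = s p :=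
    fun p hp hp' => loc_const (hsS p hp) hp hp'
  have hout : ∀ x : E, R ≤ ‖x‖ → x ∉ S ∧ x ∉ S' := by
    intro x hx
    refine ⟨fun h => ?_, fun h => ?_⟩
    · have := hR (Or.inl h)
      rw [mem_ball_zero_iff] at this
      linarith
    · have := hR (Or.inr h)
      rw [mem_ball_zero_iff] at this
      linarith
  let x₀ : E := R • ev 0
  have hx₀ : R ≤ ‖x₀‖ := by
    change R ≤ ‖R • ev 0‖
    rw [norm_smul]
    simp [le_abs_self]
  set c₀ : ℤˣ := s x₀ with hc₀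
  have hopen : ∀ P : ℤˣ → Prop, IsOpen {x | x ∉ S ∧ x ∉ S' ∧ P (s x)} := by
    intro P
    rw [Metric.isOpen_iff]
    rintro x ⟨h1, h2, h3⟩
    obtain ⟨r, hr, h4⟩ := hloc x h1 h2
    exact ⟨r, hr, fun y hy => ⟨(h4 y hy).1, (h4 y hy).2.1, by rw [(h4 y hy).2.2]; exact h3⟩⟩
  have hext : ∀ x : E, R ≤ ‖x‖ → s x = c₀ := by
    intro x hx
    by_contra hne
    obtain ⟨y, -, hy1, hy2⟩ := outside R _ _ (hopen fun t => t = c₀) (hopen fun t => t ≠ c₀)
      (fun y hy => by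
        by_cases h : s y = c₀
        · exact Or.inl ⟨(hout y hy).1, (hout y hy).2, h⟩
        · exact Or.inr ⟨(hout y hy).1, (hout y hy).2, h⟩)
      ⟨x₀, hx₀, (hout x₀ hx₀).1, (hout x₀ hx₀).2, rfl⟩
      ⟨x, hx, (hout x hx).1, (hout x hx).2, hne⟩
    exact hy2.2.2 hy1.2.2
  let D : Set E := {x | x ∉ S ∧ x ∉ S' ∧ s x ≠ c₀}
  have hDo : IsOpen D := hopen fun t => t ≠ c₀
  have hDb : Bornology.IsBounded D := by
    refine (isBounded_ball (x := (0 : E)) (r := R)).subset fun x hx => ?_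
    rw [mem_ball_zero_iff]
    by_contra h
    exact hx.2.2 (hext x (not_lt.1 h))
  have hDc : ∀ x ∈ closure D, x ∉ S → x ∉ S' → x ∈ D := by
    intro x hx h1 h2
    obtain ⟨r, hr, h4⟩ := hloc x h1 h2
    obtain ⟨y, hy, hyD⟩ := Metric.mem_closure_iff.1 hx r hr
    refine ⟨h1, h2, ?_⟩
    rw [← (h4 y (by rw [mem_ball, dist_comm]; exact hyD)).2.2]
    exact hy.2.2
  have hDe : D = ∅ := by
    by_contra hne
    have hDn : D.Nonempty := nonempty_iff_ne_empty.2 hne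
    have hWN : ∀ i, WN Ω S (h i) := fun i =>
      hWNS Ω S σ ν _ (h i) (τ i) hΩ.op hΩ.bdd hσ hS.cpt hS.sub (hH i) (hSol i)
    have hWN' : ∀ i, WN Ω S' (h' i) := fun i =>
      hWNS Ω S' σ ν _ (h' i) (τ' i) hΩ.op hΩ.bdd hσ hS'.cpt hS'.sub (hH' i) (hSol' i)
    have hFF : ∀ i, FF D (gr (h' i)) (Ω \ S') := fun i =>
      hFFG Ω S S' D (h i) (h' i) hΩ hS hS'.cpt hS'.sub (hWN i) (hH' i) (heq i) hDo hDc
    have hDc' : ∀ x ∈ closure D, x ∉ S ∪ S' → x ∈ D := fun x hx h1 =>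
      hDc x hx (fun h => h1 (Or.inl h)) fun h => h1 (Or.inr h)
    obtain ⟨p1, p2, p3⟩ := hPRO Ω σ ν hΩ hσ
    have hint := hFMB Ω S' σ ν (psi0 Ω σ ν) (h' 0) (τ' 0) D (S ∪ S') hΩ.op hΩ.bdd hσ hS' p2.l2
      (hH' 0) (hSol' 0) hDo hDb hYc hYΩ subset_union_right hDc' (hFF 0)
    have hcl : closure D ⊆ Ω := hFM3 Ω σ ν (3 * (volume Ω).toReal / (σ univ).toReal) D (S ∪ S')
      hΩ hσ (by positivity) hDo hDb hYc hYΩ hDc' hint
    have hgr := hFMG Ω S' (h' 1) D hΩ.op hΩ.bdd hS' (hWN' 1) hDo hcl (hFF 1)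
    refine hNVO Ω S' σ ν (h' 1) (τ' 1) hΩ hσ hS'.cpt hS'.sub (hEDC Ω S' hS').2.2.2.2
      (hCNX Ω S' hΩ.op hΩ.conn hS').isPreconnected (hH' 1) (hSol' 1) D hDo hDn ?_ ?_
    · intro x hx
      exact ⟨hcl (subset_closure hx), hx.2.1⟩
    · intro x hx
      exact hgr x hx hx.2.1
  have hconst : ∀ x, x ∉ S → x ∉ S' → s x = c₀ := by
    intro x h1 h2
    by_contra h3
    have : x ∈ D := ⟨h1, h2, h3⟩
    rw [hDe] at this
    exact this
  have hi1 : intPts S ⊆ S' := int_sub hsS' hconst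
  have hi2 : intPts S' ⊆ S := int_sub (fun p hp => swap (hsS p hp))
    fun x h1 h2 => hconst x h2 h1
  refine Subset.antisymm ?_ ?_
  · exact (hSQI Ω S hS).trans (closure_minimal hi1 hS'.cpt.isClosed)
  · exact (hSQI Ω S' hS').trans (closure_minimal hi2 hS.cpt.isClosed)

end Pool.Agent.H13.CK
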